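import Pool.Agent.helper76.UF.Spec

/-!
# Row uf:BAS: the basis of the cyclotomic ring and its automorphisms
-/

set_option autoImplicit false

namespace Pool.Agent.UF

open Finset Polynomial NumberField

/-- BAS: `Z[z]` for a primitive root of unity of order `2^(m+1)`. -/
theorem BAS : BAS_stmt := by
  intro m K _ _ _ z hz
  have : NeZero (2 ^ (m + 1)) := ⟨by positivity⟩
  have : Fact (Nat.Prime 2) := ⟨Nat.prime_two⟩
  have hzK : IsPrimitiveRoot (z : K) (2 ^ (m + 1)) :=
    hz.map_of_injective (f := algebraMap (𝓞 K) K) (RingOfIntegers.coe_injective)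
  have hint : hzK.toInteger = z := by
    apply RingOfIntegers.ext
    rfl
  obtain ⟨pb, hgen, hdim⟩ : ∃ pb : PowerBasis ℤ (𝓞 K), pb.gen = z ∧ pb.dim = 2 ^ m := by
    refine ⟨hzK.integralPowerBasis, ?_, ?_⟩
    · rw [hzK.integralPowerBasis_gen, hint]
    · rw [hzK.integralPowerBasis_dim, Nat.totient_prime_pow_succ Nat.prime_two]
      norm_num
  refine ⟨⟨?_, ?_⟩, ?_, ?_⟩
  · have h1 : (z ^ (2 ^ m)) ^ 2 = 1 := by
      rw [← pow_mul, ← pow_succ, hz.pow_eq_one]
    have h2 : z ^ (2 ^ m) ≠ 1 :=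
      hz.pow_ne_one_of_pos_of_lt (by positivity) (by
        rw [pow_succ]
        have : 0 < 2 ^ m := by positivity
        omega)
    rcases sq_eq_one_iff.mp h1 with h | h
    · exact absurd h h2
    · exact h
  · intro c hc i hi
    have h1 := Fintype.linearIndependent_iff.mp pb.basis.linearIndependent (fun j => c j) (by
      rw [← hdim, Finset.sum_range] at hc
      rw [← hc]
      refine Finset.sum_congr rfl fun j _ => ?_
      rw [pb.basis_eq_pow, hgen, zsmul_eq_mul])
    exact h1 ⟨i, by rw [hdim]; exact hi⟩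
  · intro a
    refine ⟨fun i => if h : i < pb.dim then pb.basis.repr a ⟨i, h⟩ else 0, ?_⟩
    rw [← hdim, Finset.sum_range]
    conv_lhs => rw [← pb.basis.sum_repr a]
    refine Finset.sum_congr rfl fun j _ => ?_
    rw [pb.basis_eq_pow, hgen, zsmul_eq_mul]
    simp
  · intro t ht
    have hco : Nat.Coprime t (2 ^ (m + 1)) := (Nat.Coprime.pow_right _ (Nat.coprime_two_right.mpr ht))
    have hzt : IsPrimitiveRoot ((z : K) ^ t) (2 ^ (m + 1)) := hzK.pow_of_coprime t hco
    have hirr : Irreducible (cyclotomic (2 ^ (m + 1)) ℚ) := cyclotomic.irreducible_rat (by positivity)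
    have hmin : minpoly ℚ (hzK.powerBasis ℚ).gen = minpoly ℚ (hzt.powerBasis ℚ).gen := by
      rw [hzK.powerBasis_gen ℚ, hzt.powerBasis_gen ℚ, ← hzK.minpoly_eq_cyclotomic_of_irreducible hirr,
        ← hzt.minpoly_eq_cyclotomic_of_irreducible hirr]
    obtain ⟨g, hg⟩ : ∃ g : K ≃ₐ[ℚ] K, g (z : K) = (z : K) ^ t := by
      refine ⟨(hzK.powerBasis ℚ).equivOfMinpoly (hzt.powerBasis ℚ) hmin, ?_⟩
      have h1 := (hzK.powerBasis ℚ).equivOfMinpoly_gen (hzt.powerBasis ℚ) hmin
      rw [hzK.powerBasis_gen ℚ, hzt.powerBasis_gen ℚ] at h1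
      exact h1
    refine ⟨RingOfIntegers.mapRingEquiv (g : K ≃+* K), ?_⟩
    apply RingOfIntegers.ext
    rw [RingOfIntegers.mapRingEquiv_apply]
    refine Eq.trans hg ?_
    exact (map_pow (algebraMap (𝓞 K) K) z t).symm

end Pool.Agent.UF
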